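import Pool.Agent.ZP3.Stmts
import Pool.Agent.Helper49_ZPT.RU

/-! Squad ZP3, rows WTM and WWN. -/

set_option autoImplicit false

namespace Pool.Agent.ZP3.H33

open Polynomial Pool.Agent.ZPT Pool.Agent.ZPT.H49

theorem nat_norm_one {K : Type} [NormedField K] [CharZero K] {p : ℕ} (hp : p.Prime)
    (hK : Ext p K) {M : ℕ} (hM : ¬ p ∣ M) : ‖(M : K)‖ = 1 := by
  have := Fact.mk hp
  have h := hK (M : ℚ)
  rw [Rat.cast_natCast] at h
  rw [h, (padicNorm.nat_eq_one_iff M).2 hM, Rat.cast_one]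

/-- Row WTM. -/
theorem wtm : WTMStmt := by
  intro p hp K _ _ _ hK x hx hx1
  obtain ⟨M, hM1, hpM, hxM⟩ := hx
  by_contra hne
  have hgeom : ∑ i ∈ Finset.range M, x ^ i = 0 := by
    have h1 := geom_sum_mul x M
    rw [hxM, sub_self] at h1
    exact (mul_eq_zero.mp h1).resolve_right (sub_ne_zero.mpr hne)
  have h2 := geom_near hx1.le M
  rw [hgeom, zero_sub, norm_neg, nat_norm_one hp hK hpM] at h2
  exact absurd (lt_of_le_of_lt h2 hx1) (lt_irrefl _)

theorem th_pow {p : ℕ} (hp3 : 3 ≤ p) : th p ^ (p - 1) = (p : ℝ)⁻¹ := by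
  have hp0 : (0 : ℝ) ≤ p := by positivity
  rw [th, ← Real.rpow_natCast, ← Real.rpow_mul hp0]
  have h1 : ((p - 1 : ℕ) : ℝ) = (p : ℝ) - 1 := by
    rw [Nat.cast_sub (by omega), Nat.cast_one]
  have h2 : (p : ℝ) - 1 ≠ 0 := by
    have : (3 : ℝ) ≤ p := by exact_mod_cast hp3
    intro h
    linarith
  rw [h1, div_mul_cancel₀ _ h2, Real.rpow_neg_one]

/-- Row WWN. -/
theorem wwn : WWNStmt := by
  intro p hp hp3 K _ _ _ hK k w hk hw
  have := Fact.mk hp
  have hpow0 : p ^ k ≠ 0 := pow_ne_zero _ hp.ne_zero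
  have hroot : ∀ μ : K, IsPrimitiveRoot μ (p ^ k) → ‖μ - 1‖ ≤ 1 := by
    intro μ hμ
    have h1 : ‖μ‖ = 1 := by
      have h2 : ‖μ‖ ^ (p ^ k) = 1 := by rw [← norm_pow, hμ.pow_eq_one, norm_one]
      exact (pow_eq_one_iff_of_nonneg (norm_nonneg _) hpow0).1 h2
    have h3 := IsUltrametricDist.norm_add_le_max μ (-1)
    rw [h1, norm_neg, norm_one, max_self, ← sub_eq_add_neg] at h3
    exact h3
  have hle : ∀ μ ν : K, IsPrimitiveRoot μ (p ^ k) → IsPrimitiveRoot ν (p ^ k) → ‖ν - 1‖ ≤ ‖μ - 1‖ := by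
    intro μ ν hμ hν
    obtain ⟨i, _, hi⟩ := hμ.eq_pow_of_pow_eq_one hν.pow_eq_one
    rw [← hi]
    exact pow_sub_one_le (hroot μ hμ) i
  have hprod : (p : K) = ∏ μ ∈ primitiveRoots (p ^ k) K, (1 - μ) := by
    have h1 := Polynomial.cyclotomic_eq_prod_X_sub_primitiveRoots hw
    have h2 := congrArg (Polynomial.eval (1 : K)) h1
    rw [Polynomial.eval_prod] at h2
    obtain ⟨j, rfl⟩ : ∃ j, k = j + 1 := ⟨k - 1, by omega⟩
    rw [Polynomial.eval_one_cyclotomic_prime_pow] at h2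
    rw [h2]
    refine Finset.prod_congr rfl fun μ _ => ?_
    rw [Polynomial.eval_sub, Polynomial.eval_X, Polynomial.eval_C]
  have hcard : (primitiveRoots (p ^ k) K).card = p ^ (k - 1) * (p - 1) := by
    rw [hw.card_primitiveRoots, Nat.totient_prime_pow hp (by omega)]
  have hmain : ‖w - 1‖ ^ (p ^ (k - 1) * (p - 1)) = (p : ℝ)⁻¹ := by
    have h1 : ‖(p : K)‖ = ∏ μ ∈ primitiveRoots (p ^ k) K, ‖w - 1‖ := by
      rw [hprod, norm_prod]
      refine Finset.prod_congr rfl fun μ hμ => ?_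
      have hμ' := isPrimitiveRoot_of_mem_primitiveRoots hμ
      rw [norm_sub_rev]
      exact le_antisymm (hle w μ hw hμ') (hle μ w hμ' hw)
    rw [Finset.prod_const, hcard, p_norm hp hK, one_div] at h1
    exact h1.symm
  have hp1 : (p : ℝ)⁻¹ < 1 := inv_lt_one_of_one_lt₀ (by exact_mod_cast hp.one_lt)
  have hpos : 0 ≤ ‖w - 1‖ := norm_nonneg _
  have hlt : ‖w - 1‖ < 1 := by
    by_contra h
    have h2 := one_le_pow₀ (not_lt.1 h) (n := p ^ (k - 1) * (p - 1))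
    rw [hmain] at h2
    exact absurd (lt_of_le_of_lt h2 hp1) (lt_irrefl _)
  have hth0 : 0 ≤ th p := by unfold th; positivity
  have hp1' : p - 1 ≠ 0 := by omega
  refine ⟨hmain, ?_, hlt, fun hk1 => ?_⟩
  · have h3 : th p ^ (p - 1) ≤ ‖w - 1‖ ^ (p - 1) := by
      rw [th_pow hp3, ← hmain]
      refine pow_le_pow_of_le_one hpos hlt.le ?_
      exact Nat.le_mul_of_pos_left _ (pow_pos hp.pos _)
    exact le_of_pow_le_pow_left₀ hp1' hpos h3
  · subst hk1
    have h4 : ‖w - 1‖ ^ (p - 1) = th p ^ (p - 1) := by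
      rw [th_pow hp3]
      simpa using hmain
    exact (pow_left_inj₀ hpos hth0 hp1').1 h4

end Pool.Agent.ZP3.H33
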